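import Mathlib
import Pool.Agent.U115.GE.Defs
import Pool.Agent.U115.TP.Loc
import Pool.Agent.N916.GB.Stm

/-!
# Project XM (helper845): `X_0(15)` over imaginary quadratic fields

`X_0(15) : y² + x y + y = x³ + x² - 10 x - 10`. With `X = 4 x - 12`, `Y = 4 (2 y + x + 1)` this is
`Y² = X (X + 16) (X + 25)`; the twist by `-n` is `Y² = X (X - 16 n) (X - 25 n)`.

If `3` is not inert and `5` is not split in `K = ℚ(√-n)` and the class group of `K` has no element of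
order four, then `X_0(15)(K)` is finite. Statements of the parts.
-/

set_option autoImplicit false
set_option linter.unusedVariables false

open scoped Classical

namespace Pool.Agent.U845.XM

open Finset
open Pool.Agent.U115.GE (SelSet sel)
open Pool.Agent.U115.TP (LSol)
open Pool.Agent.N916.GB (Po sy Vt Gd Ok eta)
open Pool.Agent.Y703.CQ (nr)
open Pool.Agent.N973.ND (uu)

open Pool.Agent.Y682 (wc)

/-- the numbers `n`: `3` is not inert and `5` is not split in `ℚ(√-n)` -/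
def Nc (n : ℕ) : Prop := Squarefree n ∧ n % 3 ≠ 1 ∧ n % 5 ≠ 1 ∧ n % 5 ≠ 4

/-- `n = m` or `n = 2 m` with `m` odd, and the parameters of the prime discriminant at two -/
def Par (n : ℕ) (t : Bool) (r s : ZMod 2) (m : ℕ) : Prop :=
  n = (if r = 1 then 2 * m else m) ∧ m % 4 = (if s = 0 then 3 else 1) ∧
    (t = false ↔ r = 0 ∧ s = 0)

/-- XM-NRM: a norm equation at a prime dividing `c` exactly once. -/
def S_NRM : Prop := ∀ (l : ℕ) [Fact l.Prime] (d c c1 : ℤ), c = l * c1 → ¬ (l : ℤ) ∣ c1 →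
  ∀ W N T : ℤ_[l], (W ≠ 0 ∨ N ≠ 0 ∨ T ≠ 0) → W ^ 2 = d * (N ^ 2 + c * T ^ 2) →
  (¬ (l : ℤ) ∣ d → IsSquare (d : ZMod l)) ∧
  ∀ d1 : ℤ, d = l * d1 → ¬ (l : ℤ) ∣ d1 → IsSquare ((d1 * c1 : ℤ) : ZMod l)

/-- XM-LOC: the primes dividing `n`. -/
def S_LOC : Prop := ∀ n : ℕ, Squarefree n → ∀ l : ℕ, l.Prime → l ∣ n →
  (∀ d ∈ SelSet (-41 * n) (400 * n ^ 2), (¬ (l : ℤ) ∣ d → IsSquare (d : ZMod l)) ∧
    ∀ d1 n1 : ℤ, d = l * d1 → (n : ℤ) = l * n1 → IsSquare ((d1 * n1 : ℤ) : ZMod l)) ∧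
  (∀ d ∈ SelSet (82 * n) (81 * n ^ 2), (¬ (l : ℤ) ∣ d → IsSquare (d : ZMod l)) ∧
    ∀ d1 n1 : ℤ, d = l * d1 → (n : ℤ) = l * n1 → IsSquare ((-(d1 * n1) : ℤ) : ZMod l))

/-- XM-A: the primes three and five. -/
def S_A : Prop := ∀ n : ℕ, Squarefree n →
  (∀ d ∈ SelSet (-41 * n) (400 * n ^ 2), n % 5 = 2 ∨ n % 5 = 3 → ¬ (5 : ℤ) ∣ d) ∧
  (∀ d ∈ SelSet (82 * n) (81 * n ^ 2), n % 3 = 2 → ¬ (3 : ℤ) ∣ d)

/-- XM-B: the prime two. -/
def S_B : Prop := ∀ n : ℕ, Squarefree n →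
  (∀ d ∈ SelSet (-41 * n) (400 * n ^ 2), n % 4 = 3 → ¬ (2 : ℤ) ∣ d) ∧
  (∀ d ∈ SelSet (82 * n) (81 * n ^ 2),
    (n % 2 = 1 → d % 8 = 1 ∨ (d + n) % 8 = 0 ∨ (n % 8 = 7 ∧ d % 8 = 5)) ∧
    (n % 2 = 0 → d % 8 = 1 ∨ ∃ d1 : ℤ, d = 2 * d1 ∧ (2 * d1 + n) % 16 = 0))

/-- XM-C: the sign and the prime factors. -/
def S_C : Prop := ∀ n : ℕ, Squarefree n →
  (∀ d ∈ SelSet (-41 * n) (400 * n ^ 2), 0 < d ∧ ∀ q : ℕ, q.Prime → (q : ℤ) ∣ d →
    q = 2 ∨ q = 5 ∨ q ∣ n) ∧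
  (∀ d ∈ SelSet (82 * n) (81 * n ^ 2), ∀ q : ℕ, q.Prime → (q : ℤ) ∣ d → q = 3 ∨ q ∣ n)

/-- XM-POS: the Selmer group of the isogeny. -/
def S_POS : Prop := ∀ (n : ℕ) (t : Bool) (r s : ZMod 2) (m : ℕ), Nc n → Par n t r s m →
  Gd t r s m.primeFactors → ∀ d ∈ SelSet (-41 * n) (400 * n ^ 2), d = 1 ∨ d = n

/-- XM-DUA: the Selmer group of the dual isogeny. -/
def S_DUA : Prop := ∀ (n : ℕ) (t : Bool) (r s : ZMod 2) (m : ℕ), Nc n → Par n t r s m →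
  Gd t r s m.primeFactors → ∀ d ∈ SelSet (82 * n) (81 * n ^ 2), d = 1 ∨ d = -n

/-- the column equation (the same as `Pool.Agent.N848.Q.Lk`) -/
noncomputable def Lk (t : Bool) (r s : ZMod 2) (S : Finset ℕ) (x : ℕ → ZMod 2) (p : ℕ) : ZMod 2 :=
  ∑ q ∈ Vt t S, (if q = p then 0 else x q * sy r s q p + x p * sy r s p q)

/-- XM-LK: if the left kernel of the Rédei system is generated by one vector, then the system is
good (the converse of `Pool.Agent.N848.Q.left_two`). -/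
def S_LK : Prop := ∀ (t : Bool) (r s : ZMod 2) (S : Finset ℕ), (∀ p ∈ S, Po p) →
  (t = false ↔ r = 0 ∧ s = 0) → ∑ p ∈ S, uu p = 1 + s → (Vt t S).Nonempty →
  (∀ x : ℕ → ZMod 2, (∀ p ∈ Vt t S, Lk t r s S x p = 0) →
    (∀ p ∈ Vt t S, x p = 0) ∨ ∀ p ∈ Vt t S, x p = if p = 2 then r else 1) →
  Gd t r s S

/-- XM-CL: a class group without elements of order four. -/
def S_CL : Prop := ∀ (K : Type) [Field K] [NumberField K], Module.finrank ℚ K = 2 →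
  ∀ (n : ℕ) (t : Bool) (r s : ZMod 2) (m : ℕ), Squarefree n → 2 ≤ n →
  (∃ z : K, z ^ 2 = -(n : K)) → Par n t r s m →
  (∀ c : ClassGroup (NumberField.RingOfIntegers K), c ^ 4 = 1 → c ^ 2 = 1) →
  Gd t r s m.primeFactors

/-- XM-QX: the rational points of `X_0(15)`. -/
def S_QX : Prop := {p : ℚ × ℚ | p.2 ^ 2 = p.1 ^ 3 + 41 * p.1 ^ 2 + 400 * p.1}.Finite

/-- XM-K: from the rational points of the curve and its twist to the points over the field. -/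
def S_K : Prop := ∀ (K : Type) [Field K] [NumberField K], Module.finrank ℚ K = 2 →
  ∀ n : ℕ, 0 < n → (∃ z : K, z ^ 2 = -(n : K)) →
  {p : ℚ × ℚ | p.2 ^ 2 = p.1 ^ 3 + 41 * p.1 ^ 2 + 400 * p.1}.Finite →
  {p : ℚ × ℚ | p.2 ^ 2 = p.1 ^ 3 - 41 * n * p.1 ^ 2 + 400 * n ^ 2 * p.1}.Finite →
  Finite (⟨1, 1, 1, -10, -10⟩ : WeierstrassCurve K).toAffine.Point

/-- XM-DEN: the natural density. -/
def S_DEN : Prop := ∀ P : ℕ → Prop,
  (∀ (n : ℕ) (t : Bool) (r s : ZMod 2) (m : ℕ), Nc n → Par n t r s m →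
    Gd t r s m.primeFactors → P n) →
  ∃ X₀ : ℕ, ∀ X : ℕ, X₀ ≤ X →
    0.2887 * (((Icc 1 X).filter Nc).card : ℝ) ≤ (((Icc 1 X).filter fun n => Nc n ∧ P n).card : ℝ)

end Pool.Agent.U845.XM
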