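import Pool.Agent.U845.XM.Stm
import Pool.Agent.U845.TI.Sel
import Pool.Agent.Y797.FK.Disc

/-!
# Project XM: assembly
-/

set_option autoImplicit false
set_option linter.unusedVariables false

open scoped Classical

namespace Pool.Agent.U845.XM

open Finset
open Pool.Agent.U115.GE (SelSet sel)
open Pool.Agent.N916.GB (Po sy Vt Gd Ok eta)

/-- small Selmer groups -/
theorem fin_sel {n : ℕ} (h0 : n ≠ 0)
    (hP : ∀ d ∈ SelSet (-41 * n) (400 * n ^ 2), d = 1 ∨ d = n)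
    (hD : ∀ d ∈ SelSet (82 * n) (81 * n ^ 2), d = 1 ∨ d = -n) :
    {p : ℚ × ℚ | p.2 ^ 2 = p.1 ^ 3 - 41 * n * p.1 ^ 2 + 400 * n ^ 2 * p.1}.Finite := by
  have hn0 : (n : ℤ) ≠ 0 := by exact_mod_cast h0
  have hB : (400 * n ^ 2 : ℤ) ≠ 0 := by positivity
  have e1 : (-41 * (n : ℤ)) ^ 2 - 4 * (400 * n ^ 2) = 81 * n ^ 2 := by ring
  have e2 : -2 * (-41 * (n : ℤ)) = 82 * n := by ring
  have hC : (-41 * (n : ℤ)) ^ 2 - 4 * (400 * n ^ 2) ≠ 0 := by
    rw [e1]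
    positivity
  have h4 := Pool.Agent.U845.TI.four_le hB hC
  rw [e1, e2] at h4
  have c2 : ∀ a b : ℤ, ({a, b} : Set ℤ).ncard ≤ 2 := by
    intro a b
    refine (Set.ncard_insert_le a {b}).trans ?_
    rw [Set.ncard_singleton]
  have h1 : sel (-41 * n) (400 * n ^ 2) ≤ 2 := by
    refine (Set.ncard_le_ncard (t := {1, (n : ℤ)}) (fun d hd => ?_) (Set.toFinite _)).trans (c2 _ _)
    rcases hP d hd with h | h
    · exact Or.inl h
    · exact Or.inr h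
  have h2 : sel (82 * n) (81 * n ^ 2) ≤ 2 := by
    refine (Set.ncard_le_ncard (t := {1, -(n : ℤ)}) (fun d hd => ?_) (Set.toFinite _)).trans (c2 _ _)
    rcases hD d hd with h | h
    · exact Or.inl h
    · exact Or.inr h
  have h3 : sel (-41 * n) (400 * n ^ 2) * sel (82 * n) (81 * n ^ 2) ≤ 2 * 2 := Nat.mul_le_mul h1 h2
  have h5 : sel (-41 * n) (400 * n ^ 2) *
      sel (-2 * (-41 * (n : ℤ))) ((-41 * (n : ℤ)) ^ 2 - 4 * (400 * n ^ 2)) = 4 := by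
    rw [e1, e2]
    omega
  have h6 := Pool.Agent.U845.TI.sol_fin hB hC (Pool.Agent.U845.TI.fin_of hB hC h5).1
  refine h6.subset ?_
  rintro ⟨x, y⟩ h
  have h : y ^ 2 = x ^ 3 - 41 * n * x ^ 2 + 400 * n ^ 2 * x := h
  show y ^ 2 = x ^ 3 + ((-41 * (n : ℤ) : ℤ) : ℚ) * x ^ 2 + ((400 * (n : ℤ) ^ 2 : ℤ) : ℚ) * x
  push_cast
  rw [h]
  ring

/-- the twist has finitely many rational points -/
theorem fin_tw (hP : S_POS) (hD : S_DUA) {n : ℕ} {t : Bool} {r s : ZMod 2} {m : ℕ} (hn : Nc n)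
    (hp : Par n t r s m) (hG : Gd t r s m.primeFactors) :
    {p : ℚ × ℚ | p.2 ^ 2 = p.1 ^ 3 - 41 * n * p.1 ^ 2 + 400 * n ^ 2 * p.1}.Finite :=
  fin_sel hn.1.ne_zero (hP n t r s m hn hp hG) (hD n t r s m hn hp hG)

/-- the parameters exist -/
theorem exists_par {n : ℕ} (hn : Squarefree n) : ∃ (t : Bool) (r s : ZMod 2) (m : ℕ),
    Par n t r s m := by
  have h10 : (1 : ZMod 2) ≠ 0 := by decide
  have h01 : (0 : ZMod 2) ≠ 1 := by decide
  have h4 : n % 4 ≠ 0 := by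
    intro h
    have h2 := hn 2 (Nat.dvd_of_mod_eq_zero h)
    rw [Nat.isUnit_iff] at h2
    omega
  rcases (by omega : n % 4 = 3 ∨ n % 4 = 1 ∨ (n % 2 = 0 ∧ (n / 2) % 4 = 3) ∨
    (n % 2 = 0 ∧ (n / 2) % 4 = 1)) with h | h | h | h
  · refine ⟨false, 0, 0, n, ?_, ?_, by simp⟩
    · rw [if_neg h01]
    · rw [if_pos rfl]; exact h
  · refine ⟨true, 0, 1, n, ?_, ?_, by simp⟩
    · rw [if_neg h01]
    · rw [if_neg h10]; exact h
  · refine ⟨true, 1, 0, n / 2, ?_, ?_, by simp⟩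
    · rw [if_pos rfl]; omega
    · rw [if_pos rfl]; exact h.2
  · refine ⟨true, 1, 1, n / 2, ?_, ?_, by simp⟩
    · rw [if_pos rfl]; omega
    · rw [if_neg h10]; exact h.2

/-- the final statement, first part -/
def Fin1 : Prop := ∀ (K : Type) [Field K] [NumberField K], Module.finrank ℚ K = 2 →
  NumberField.discr K < 0 → NumberField.discr K % 3 ≠ 2 → NumberField.discr K % 5 ≠ 1 →
  NumberField.discr K % 5 ≠ 4 →
  (∀ c : ClassGroup (NumberField.RingOfIntegers K), c ^ 4 = 1 → c ^ 2 = 1) →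
  Finite (⟨1, 1, 1, -10, -10⟩ : WeierstrassCurve K).toAffine.Point

/-- finitely many points over `ℚ(√-n)` -/
def FinX (n : ℕ) : Prop := ∀ (K : Type) [Field K] [NumberField K], Module.finrank ℚ K = 2 →
  (∃ z : K, z ^ 2 = -(n : K)) → Finite (⟨1, 1, 1, -10, -10⟩ : WeierstrassCurve K).toAffine.Point

/-- the final statement, second part -/
def Fin2 : Prop := ∃ X₀ : ℕ, ∀ X : ℕ, X₀ ≤ X →
    0.2887 * (((Icc 1 X).filter Nc).card : ℝ) ≤
      (((Icc 1 X).filter fun n => Nc n ∧ FinX n).card : ℝ)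

theorem finX_of (hP : S_POS) (hD : S_DUA) (hQ : S_QX) (hK : S_K) {n : ℕ} {t : Bool} {r s : ZMod 2}
    {m : ℕ} (hn : Nc n) (hp : Par n t r s m) (hG : Gd t r s m.primeFactors) : FinX n :=
  fun K _ _ h2 hz => hK K h2 n (Nat.pos_of_ne_zero hn.1.ne_zero) hz hQ (fin_tw hP hD hn hp hG)

theorem asm1 (hP : S_POS) (hD : S_DUA) (hQ : S_QX) (hK : S_K) (hC : S_CL) : Fin1 := by
  intro K _ _ h2 hneg h3 h5 h5' hcl
  obtain ⟨n, hn, hz⟩ := Pool.Agent.Y797.FK.t_DISC.2.1 K h2 hneg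
  have hd := Pool.Agent.Y797.FK.t_DISC.1 K h2 n hn hz
  have hNc : Nc n := by
    refine ⟨hn, ?_, ?_, ?_⟩ <;> · rw [hd] at h3 h5 h5'; split_ifs at h3 h5 h5' <;> omega
  obtain ⟨t, r, s, m, hp⟩ := exists_par hn
  have h1 : 2 ≤ n := by
    have := hNc.2.1
    have := hn.ne_zero
    by_contra hcon
    have : n = 1 := by omega
    rw [this] at hNc
    exact hNc.2.1 rfl
  exact finX_of hP hD hQ hK hNc hp (hC K h2 n t r s m hn h1 hz hp hcl) K h2 hz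

theorem asm2 (hP : S_POS) (hD : S_DUA) (hQ : S_QX) (hK : S_K) (hN : S_DEN) : Fin2 :=
  hN FinX fun n t r s m hn hp hG => finX_of hP hD hQ hK hn hp hG

end Pool.Agent.U845.XM
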