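import Pool.Agent.U845.XM.Stm
import Pool.Agent.U115.GE.Sel

/-!
# Project XM: the sign and the prime factors
-/

set_option autoImplicit false

open scoped Classical

namespace Pool.Agent.U845.XM

open Pool.Agent.U115.GE (SelSet sel sel_dvd)

theorem dvd_cases {c n q : ℕ} (hq : q.Prime) (h : (q : ℤ) ∣ (c : ℤ) * (n : ℤ) ^ 2) :
    q ∣ c ∨ q ∣ n := by
  have h1 : q ∣ c * n ^ 2 := by exact_mod_cast h
  rcases hq.dvd_mul.1 h1 with h2 | h2
  · exact Or.inl h2
  · exact Or.inr (hq.dvd_of_dvd_pow h2)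

theorem t_C : S_C := by
  intro n hn
  have hn0 : 0 < n := Nat.pos_of_ne_zero hn.ne_zero
  refine ⟨fun d hd => ⟨?_, fun q hq hqd => ?_⟩, fun d hd q hq hqd => ?_⟩
  · have hd0 : d ≠ 0 := hd.1.ne_zero
    by_contra hcon
    have hneg : d < 0 := by omega
    obtain ⟨N, M, e, hne, h⟩ := hd.2.1
    have hd' : (d : ℝ) < 0 := by exact_mod_cast hneg
    have hn' : (0 : ℝ) < n := by exact_mod_cast hn0
    push_cast at h
    have h1 : (-41 * (n : ℝ)) * M ^ 2 * e ^ 2 ≤ 0 := by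
      have : 0 ≤ 41 * (n : ℝ) * M ^ 2 * e ^ 2 := by positivity
      nlinarith
    have h2 : 400 * (n : ℝ) ^ 2 / d ≤ 0 := div_nonpos_of_nonneg_of_nonpos (by positivity) hd'.le
    have h2' : 400 * (n : ℝ) ^ 2 / d < 0 := div_neg_of_pos_of_neg (by positivity) hd'
    have h3 : 400 * (n : ℝ) ^ 2 / d * e ^ 4 ≤ 0 := mul_nonpos_of_nonpos_of_nonneg h2 (by positivity)
    have h4 : (d : ℝ) * M ^ 4 ≤ 0 := mul_nonpos_of_nonpos_of_nonneg hd'.le (by positivity)
    rcases hne with hM | he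
    · have h5 : (d : ℝ) * M ^ 4 < 0 := mul_neg_of_neg_of_pos hd' (by positivity)
      nlinarith [sq_nonneg N]
    · have h5 : 400 * (n : ℝ) ^ 2 / d * e ^ 4 < 0 := mul_neg_of_neg_of_pos h2' (by positivity)
      nlinarith [sq_nonneg N]
  · have h1 := sel_dvd hd hq hqd
    rcases dvd_cases (c := 400) hq (by exact_mod_cast h1) with h2 | h2
    · have h3 : q ∣ 2 ^ 4 * 5 ^ 2 := by norm_num; exact h2
      rcases hq.dvd_mul.1 h3 with h4 | h4
      · left
        exact (Nat.prime_dvd_prime_iff_eq hq Nat.prime_two).1 (hq.dvd_of_dvd_pow h4)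
      · right; left
        exact (Nat.prime_dvd_prime_iff_eq hq Nat.prime_five).1 (hq.dvd_of_dvd_pow h4)
    · exact Or.inr (Or.inr h2)
  · have h1 := sel_dvd hd hq hqd
    rcases dvd_cases (c := 81) hq (by exact_mod_cast h1) with h2 | h2
    · have h3 : q ∣ 3 ^ 4 := by norm_num; exact h2
      left
      exact (Nat.prime_dvd_prime_iff_eq hq Nat.prime_three).1 (hq.dvd_of_dvd_pow h3)
    · exact Or.inr h2

end Pool.Agent.U845.XM
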