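import Pool.Agent.U845.XM.Stm
import Pool.Agent.U115.GE.Loc

set_option autoImplicit false

open scoped Classical

namespace Pool.Agent.U845.XM

open Pool.Agent.U115.GE (SelSet sel lsol_of_qs)
open Pool.Agent.U115.TP (LSol)

theorem not_dvd_cof {n l : ℕ} (hn : Squarefree n) (hl : l.Prime) {n1 : ℤ} (h : (n : ℤ) = l * n1) :
    ¬ (l : ℤ) ∣ n1 := by
  rintro ⟨k, hk⟩
  have h1 : (l : ℤ) * l ∣ n := ⟨k, by rw [h, hk]; ring⟩
  have h2 : l * l ∣ n := by exact_mod_cast h1
  exact hl.one_lt.ne' (Nat.isUnit_iff.1 (hn l h2))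

theorem not_dvd_cof' {d : ℤ} {l : ℕ} (hd : Squarefree d) (hl : l.Prime) {d1 : ℤ} (h : d = l * d1) :
    ¬ (l : ℤ) ∣ d1 := by
  rintro ⟨k, hk⟩
  exact (Nat.prime_iff_prime_int.1 hl).not_isUnit (hd l ⟨k, by rw [h, hk]; ring⟩)

theorem t_LOC (hN : S_NRM) : S_LOC := by
  intro n hn l hl hln
  haveI : Fact l.Prime := ⟨hl⟩
  obtain ⟨k, hk⟩ := hln
  have hk' : (n : ℤ) = l * (k : ℤ) := by exact_mod_cast hk
  have hlk := not_dvd_cof hn hl hk'
  have hn0 : (n : ℤ_[l]) ≠ 0 := by
    have := hn.ne_zero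
    exact_mod_cast this
  have h20 : (20 : ℤ_[l]) ≠ 0 := by norm_num
  have h9 : (9 : ℤ_[l]) ≠ 0 := by norm_num
  have h8 : (8 : ℤ_[l]) ≠ 0 := by norm_num
  constructor
  · intro d hd
    have hd0 : (d : ℤ_[l]) ≠ 0 := by
      have := hd.1.ne_zero
      exact_mod_cast this
    obtain ⟨w, e, N, hwe, h⟩ := lsol_of_qs hd.1 (hd.2.2 l)
    push_cast at h
    have key := hN l d n k hk' hlk ((d : ℤ_[l]) * w ^ 2 - 20 * n * e ^ 2) N (w * e) (by
      by_contra hcon
      push Not at hcon
      obtain ⟨h1, -, h3⟩ := hcon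
      rcases mul_eq_zero.1 h3 with h4 | h4
      · rw [h4] at h1
        have h5 : (20 * (n : ℤ_[l])) * e ^ 2 = 0 := by linear_combination -h1
        have h6 : e = 0 := by
          rcases mul_eq_zero.1 h5 with h | h
          · exact absurd h (mul_ne_zero h20 hn0)
          · exact pow_eq_zero_iff (two_ne_zero) |>.1 h
        exact hwe ⟨by rw [h4]; exact dvd_zero _, by rw [h6]; exact dvd_zero _⟩
      · rw [h4] at h1
        have h5 : (d : ℤ_[l]) * w ^ 2 = 0 := by linear_combination h1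
        have h6 : w = 0 := by
          rcases mul_eq_zero.1 h5 with h | h
          · exact absurd h hd0
          · exact pow_eq_zero_iff (two_ne_zero) |>.1 h
        exact hwe ⟨by rw [h6]; exact dvd_zero _, by rw [h4]; exact dvd_zero _⟩) (by
      push_cast
      linear_combination -h)
    refine ⟨key.1, fun d1 n1 h1 h2 => ?_⟩
    have h3 : n1 = k := by
      have hl0 : (l : ℤ) ≠ 0 := by exact_mod_cast hl.ne_zero
      exact mul_left_cancel₀ hl0 (h2.symm.trans hk')
    rw [h3]
    exact key.2 d1 h1 (not_dvd_cof' hd.1 hl h1)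
  · intro d hd
    have hd0 : (d : ℤ_[l]) ≠ 0 := by
      have := hd.1.ne_zero
      exact_mod_cast this
    obtain ⟨w, e, N, hwe, h⟩ := lsol_of_qs hd.1 (hd.2.2 l)
    push_cast at h
    have key := hN l d (-n) (-k) (by rw [hk']; ring) (by rwa [dvd_neg])
      ((d : ℤ_[l]) * w ^ 2 + 9 * n * e ^ 2) N (8 * (w * e)) (by
      by_contra hcon
      push Not at hcon
      obtain ⟨h1, -, h3⟩ := hcon
      have h3 := (mul_eq_zero.1 h3).resolve_left h8
      rcases mul_eq_zero.1 h3 with h4 | h4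
      · rw [h4] at h1
        have h5 : (9 * (n : ℤ_[l])) * e ^ 2 = 0 := by linear_combination h1
        have h6 : e = 0 := by
          rcases mul_eq_zero.1 h5 with h | h
          · exact absurd h (mul_ne_zero h9 hn0)
          · exact pow_eq_zero_iff (two_ne_zero) |>.1 h
        exact hwe ⟨by rw [h4]; exact dvd_zero _, by rw [h6]; exact dvd_zero _⟩
      · rw [h4] at h1
        have h5 : (d : ℤ_[l]) * w ^ 2 = 0 := by linear_combination h1
        have h6 : w = 0 := by
          rcases mul_eq_zero.1 h5 with h | h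
          · exact absurd h hd0
          · exact pow_eq_zero_iff (two_ne_zero) |>.1 h
        exact hwe ⟨by rw [h6]; exact dvd_zero _, by rw [h4]; exact dvd_zero _⟩) (by
      push_cast
      linear_combination -h)
    refine ⟨key.1, fun d1 n1 h1 h2 => ?_⟩
    have h3 : n1 = k := by
      have hl0 : (l : ℤ) ≠ 0 := by exact_mod_cast hl.ne_zero
      exact mul_left_cancel₀ hl0 (h2.symm.trans hk')
    rw [h3]
    have := key.2 d1 h1 (not_dvd_cof' hd.1 hl h1)
    rw [mul_neg] at this
    exact this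

end Pool.Agent.U845.XM
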