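import Pool.Agent.U845.XM.Stm
import Pool.Agent.U845.TI.Sel
import Pool.Agent.U301.XM.B

set_option autoImplicit false

open scoped Classical

namespace Pool.Agent.U845.XM

open Pool.Agent.U115.GE (SelSet sel lsol_of_qs sel_dvd)
open Pool.Agent.U115.TP (LSol)

theorem sf_one {d : ℤ} (hd : Squarefree d) {a : ℕ} (ha : a.Prime)
    (h : ∀ q : ℕ, q.Prime → (q : ℤ) ∣ d → q = a) : d.natAbs = 1 ∨ d.natAbs = a := by
  have h1 : Squarefree d.natAbs := Int.squarefree_natAbs.2 hd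
  have h2 := Nat.prod_primeFactors_of_squarefree h1
  have h3 : d.natAbs.primeFactors ⊆ {a} := by
    intro q hq
    have hqp := Nat.prime_of_mem_primeFactors hq
    have := h q hqp (Int.natCast_dvd.2 (Nat.dvd_of_mem_primeFactors hq))
    simpa using this
  rcases Finset.subset_singleton_iff.1 h3 with h4 | h4 <;> rw [h4] at h2
  · left; rw [← h2, Finset.prod_empty]
  · right; rw [← h2, Finset.prod_singleton]

theorem qx1 {d : ℤ} (hd : d ∈ SelSet 41 400) : d = 1 ∨ d = -1 ∨ d = 5 ∨ d = -5 := by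
  haveI : Fact (Nat.Prime 2) := ⟨Nat.prime_two⟩
  have h2 : ¬ (2 : ℤ) ∣ d := by
    rintro ⟨d1, hd1⟩
    have hodd : d1 % 2 = 1 := by
      by_contra h
      obtain ⟨z, hz⟩ : ∃ z, d1 = 2 * z := ⟨d1 / 2, by omega⟩
      have := hd.1 2 ⟨z, by rw [hd1, hz]; ring⟩
      rcases Int.isUnit_iff.1 this with h | h <;> norm_num at h
    obtain ⟨w, e, N, k, hwe, h⟩ := Pool.Agent.U301.XM.int_sol (lsol_of_qs hd.1 (hd.2.2 2))
    refine Pool.Agent.U301.XM.part1 (n := -1) (d1 := d1) (w := w) (e := e) (N := N) (k := k)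
      (by norm_num) hodd hwe ?_
    rw [hd1] at h
    have h2 : (2 : ℤ) ≠ 0 := by norm_num
    apply mul_left_cancel₀ h2
    linear_combination h
  have h5 : ∀ q : ℕ, q.Prime → (q : ℤ) ∣ d → q = 5 := by
    intro q hq hqd
    have h1 := sel_dvd hd hq hqd
    have h3 : q ∣ 2 ^ 4 * 5 ^ 2 := by
      have : (q : ℤ) ∣ ((2 ^ 4 * 5 ^ 2 : ℕ) : ℤ) := by push_cast; norm_num; exact h1
      exact_mod_cast this
    rcases hq.dvd_mul.1 h3 with h4 | h4
    · exfalso
      apply h2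
      have := (Nat.prime_dvd_prime_iff_eq hq Nat.prime_two).1 (hq.dvd_of_dvd_pow h4)
      rw [this] at hqd
      exact_mod_cast hqd
    · exact (Nat.prime_dvd_prime_iff_eq hq Nat.prime_five).1 (hq.dvd_of_dvd_pow h4)
  have := sf_one hd.1 Nat.prime_five h5
  omega

theorem qx2 {d : ℤ} (hd : d ∈ SelSet (-82) 81) : d = 1 := by
  haveI : Fact (Nat.Prime 2) := ⟨Nat.prime_two⟩
  have h3 : ∀ q : ℕ, q.Prime → (q : ℤ) ∣ d → q = 3 := by
    intro q hq hqd
    have h1 := sel_dvd hd hq hqd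
    have h3 : q ∣ 3 ^ 4 := by
      have : (q : ℤ) ∣ ((3 ^ 4 : ℕ) : ℤ) := by push_cast; norm_num; exact h1
      exact_mod_cast this
    exact (Nat.prime_dvd_prime_iff_eq hq Nat.prime_three).1 (hq.dvd_of_dvd_pow h3)
  have hcase := sf_one hd.1 Nat.prime_three h3
  have hpos : 0 < d := by
    have hd0 : d ≠ 0 := hd.1.ne_zero
    by_contra hcon
    have hneg : d < 0 := by omega
    obtain ⟨N, M, e, hne, h⟩ := hd.2.1
    have hd' : (d : ℝ) < 0 := by exact_mod_cast hneg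
    push_cast at h
    have h1 : (-82 : ℝ) * M ^ 2 * e ^ 2 ≤ 0 := by
      have : 0 ≤ (82 : ℝ) * M ^ 2 * e ^ 2 := by positivity
      nlinarith
    have h2' : (81 : ℝ) / d < 0 := div_neg_of_pos_of_neg (by positivity) hd'
    have h3 : (81 : ℝ) / d * e ^ 4 ≤ 0 := mul_nonpos_of_nonpos_of_nonneg h2'.le (by positivity)
    have h4 : (d : ℝ) * M ^ 4 ≤ 0 := mul_nonpos_of_nonpos_of_nonneg hd'.le (by positivity)
    rcases hne with hM | he
    · have h5 : (d : ℝ) * M ^ 4 < 0 := mul_neg_of_neg_of_pos hd' (by positivity)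
      nlinarith [sq_nonneg N]
    · have h5 : (81 : ℝ) / d * e ^ 4 < 0 := mul_neg_of_neg_of_pos h2' (by positivity)
      nlinarith [sq_nonneg N]
  have h8 : d % 8 = 1 ∨ (d + (-1)) % 8 = 0 ∨ ((-1 : ℤ) % 8 = 7 ∧ d % 8 = 5) := by
    obtain ⟨w, e, N, k, hwe, h⟩ := Pool.Agent.U301.XM.int_sol (lsol_of_qs hd.1 (hd.2.2 2))
    refine Pool.Agent.U301.XM.part2odd (n := -1) (w := w) (e := e) (N := N) (k := k)
      (by norm_num) (by omega) hwe ?_
    linear_combination h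
  omega

theorem a_qx : S_QX := by
  have c4 : ({1, -1, 5, -5} : Set ℤ).ncard ≤ 4 := by
    refine (Set.ncard_insert_le _ _).trans (Nat.succ_le_succ ?_)
    refine (Set.ncard_insert_le _ _).trans (Nat.succ_le_succ ?_)
    refine (Set.ncard_insert_le _ _).trans (Nat.succ_le_succ ?_)
    rw [Set.ncard_singleton]
  have h1 : sel 41 400 ≤ 4 := by
    refine (Set.ncard_le_ncard (t := {1, -1, 5, -5}) (fun d hd => ?_) (Set.toFinite _)).trans c4
    rcases qx1 hd with h | h | h | h <;> simp [h]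
  have h2 : sel (-82) 81 ≤ 1 := by
    refine (Set.ncard_le_ncard (t := {1}) (fun d hd => ?_) (Set.toFinite _)).trans
      (Set.ncard_singleton _).le
    exact qx2 hd
  have hB : (400 : ℤ) ≠ 0 := by norm_num
  have hC : (41 : ℤ) ^ 2 - 4 * 400 ≠ 0 := by norm_num
  have h4 := Pool.Agent.U845.TI.four_le hB hC
  have e1 : (41 : ℤ) ^ 2 - 4 * 400 = 81 := by norm_num
  have e2 : (-2 : ℤ) * 41 = -82 := by norm_num
  rw [e1, e2] at h4
  have h3 : sel 41 400 * sel (-82) 81 ≤ 4 * 1 := Nat.mul_le_mul h1 h2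
  have h5 : sel 41 400 * sel (-2 * 41) (41 ^ 2 - 4 * 400) = 4 := by
    rw [e1, e2]
    omega
  have h6 := Pool.Agent.U845.TI.sol_fin hB hC (Pool.Agent.U845.TI.fin_of hB hC h5).1
  refine h6.subset ?_
  rintro ⟨x, y⟩ h
  have h : y ^ 2 = x ^ 3 + 41 * x ^ 2 + 400 * x := h
  show y ^ 2 = x ^ 3 + ((41 : ℤ) : ℚ) * x ^ 2 + ((400 : ℤ) : ℚ) * x
  push_cast
  rw [h]

end Pool.Agent.U845.XM
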