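import Pool.Agent.U845.XM.Pr2
import Pool.Agent.U480.XM.A
import Pool.Agent.U301.XM.B
import Pool.Agent.U394.XM.POS
import Pool.Agent.U200.XM.DUA
import Pool.Agent.U158.XM.LK
import Pool.Agent.U375.XM.CL
import Pool.Agent.U123.XM.K
import Pool.Agent.U678.XM.DEN
import Pool.Agent.U928.XM.NRM
import Pool.Agent.U845.XM.Loc
import Pool.Agent.U845.XM.QX

/-!
# Project XM: the final theorems
-/

set_option autoImplicit false

open scoped Classical

namespace Pool.Agent.U845.XM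

theorem a_LOC : S_LOC := t_LOC Pool.Agent.U928.XM.NRM.t_NRM

theorem a_POS : S_POS := Pool.Agent.U394.XM.t_POS a_LOC Pool.Agent.U480.XM.t_A Pool.Agent.U301.XM.t_B t_C

theorem a_DUA : S_DUA := Pool.Agent.U200.XM.t_DUA a_LOC Pool.Agent.U480.XM.t_A Pool.Agent.U301.XM.t_B t_C

theorem a_QX : S_QX := a_qx

theorem a_K : S_K := Pool.Agent.U123.XM.t_K

theorem fin1 : Fin1 := asm1 a_POS a_DUA a_QX a_K (Pool.Agent.U375.XM.t_CL Pool.Agent.U158.XM.t_LK)

theorem fin2 : Fin2 := asm2 a_POS a_DUA a_QX a_K Pool.Agent.U678.XM.t_DEN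

theorem fin3 {p : ℕ} (hp : p.Prime) (h8 : p % 8 ≠ 1)
    (h15 : p % 15 = 1 ∨ p % 15 = 2 ∨ p % 15 = 4 ∨ p % 15 = 8) : FinX p :=
  finX_primes a_LOC Pool.Agent.U301.XM.t_B a_POS a_DUA a_QX a_K hp h8 h15

end Pool.Agent.U845.XM
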