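import Pool.Agent.U845.XM.Asm
import Pool.Agent.U845.XM.C
import Pool.Agent.U115.GE.Loc

/-!
# Project XM: the primes `1` or `4` modulo `15`
-/

set_option autoImplicit false

open scoped Classical

namespace Pool.Agent.U845.XM

open Pool.Agent.U115.GE (SelSet sel sel_dvd lsol_of_qs)
open Pool.Agent.U115.TP (LSol toZMod_eq_zero)

theorem dec3 : ∀ N w e : ZMod 3, (w ≠ 0 ∨ e ≠ 0) →
    2 * N ^ 2 ≠ 2 ^ 2 * w ^ 4 + (-41 * 1) * 2 * w ^ 2 * e ^ 2 + 400 * 1 ^ 2 * e ^ 4 := by decide

theorem dec5 : ∀ d n N w e : ZMod 5, (w ≠ 0 ∨ e ≠ 0) → (n = 1 ∨ n = 4) → (d = 2 ∨ d = 3) →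
    d * N ^ 2 ≠ d ^ 2 * w ^ 4 + (82 * n) * d * w ^ 2 * e ^ 2 + (81 * n ^ 2) * e ^ 4 := by decide

/-- the condition at three -/
theorem cond3 {n : ℕ} (h3 : n % 3 = 1) {d : ℤ} (hd : d ∈ SelSet (-41 * n) (400 * n ^ 2)) :
    d % 3 ≠ 2 := by
  intro h
  haveI : Fact (Nat.Prime 3) := ⟨Nat.prime_three⟩
  obtain ⟨w, e, N, hwe, h1⟩ := lsol_of_qs hd.1 (hd.2.2 3)
  have h2 := congrArg (PadicInt.toZMod (p := 3)) h1
  simp only [map_mul, map_add, map_pow, map_intCast] at h2
  have e1 : ((d : ℤ) : ZMod 3) = 2 := by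
    have : ((d : ℤ) : ZMod 3) = ((2 : ℤ) : ZMod 3) := (ZMod.intCast_eq_intCast_iff' _ _ _).2 (by omega)
    rw [this]; rfl
  have e2 : ((n : ℕ) : ZMod 3) = 1 := by
    have : ((n : ℕ) : ZMod 3) = ((1 : ℕ) : ZMod 3) := (ZMod.natCast_eq_natCast_iff' _ _ _).2 (by omega)
    rw [this]; rfl
  push_cast at h2
  rw [e1, e2] at h2
  refine dec3 _ (PadicInt.toZMod w) (PadicInt.toZMod e) ?_ h2
  by_contra hcon
  push Not at hcon
  exact hwe ⟨toZMod_eq_zero.1 hcon.1, toZMod_eq_zero.1 hcon.2⟩

/-- the condition at five -/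
theorem cond5 {n : ℕ} (h5 : n % 5 = 1 ∨ n % 5 = 4) {d : ℤ}
    (hd : d ∈ SelSet (82 * n) (81 * n ^ 2)) : d % 5 ≠ 2 ∧ d % 5 ≠ 3 := by
  by_contra hcon
  have h : d % 5 = 2 ∨ d % 5 = 3 := by
    by_contra h'
    push Not at h'
    exact hcon h'
  haveI : Fact (Nat.Prime 5) := ⟨Nat.prime_five⟩
  obtain ⟨w, e, N, hwe, h1⟩ := lsol_of_qs hd.1 (hd.2.2 5)
  have h2 := congrArg (PadicInt.toZMod (p := 5)) h1
  simp only [map_mul, map_add, map_pow, map_intCast] at h2
  have e1 : ((d : ℤ) : ZMod 5) = 2 ∨ ((d : ℤ) : ZMod 5) = 3 := by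
    rcases h with h | h
    · left
      have : ((d : ℤ) : ZMod 5) = ((2 : ℤ) : ZMod 5) :=
        (ZMod.intCast_eq_intCast_iff' _ _ _).2 (by omega)
      rw [this]; rfl
    · right
      have : ((d : ℤ) : ZMod 5) = ((3 : ℤ) : ZMod 5) :=
        (ZMod.intCast_eq_intCast_iff' _ _ _).2 (by omega)
      rw [this]; rfl
  have e2 : ((n : ℕ) : ZMod 5) = 1 ∨ ((n : ℕ) : ZMod 5) = 4 := by
    rcases h5 with h | h
    · left
      have : ((n : ℕ) : ZMod 5) = ((1 : ℕ) : ZMod 5) :=
        (ZMod.natCast_eq_natCast_iff' _ _ _).2 (by omega)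
      rw [this]; rfl
    · right
      have : ((n : ℕ) : ZMod 5) = ((4 : ℕ) : ZMod 5) :=
        (ZMod.natCast_eq_natCast_iff' _ _ _).2 (by omega)
      rw [this]; rfl
  push_cast at h2
  refine dec5 _ _ _ (PadicInt.toZMod w) (PadicInt.toZMod e) ?_ e2 e1 h2
  by_contra hcon
  push Not at hcon
  exact hwe ⟨toZMod_eq_zero.1 hcon.1, toZMod_eq_zero.1 hcon.2⟩

/-- the squarefree integers with given prime divisors -/
theorem sf_cases {d : ℤ} (hd : Squarefree d) {a b p : ℕ} (ha : a.Prime) (hb : b.Prime)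
    (hp : p.Prime) (hab : a ≠ b) (hap : a ≠ p) (hbp : b ≠ p)
    (h : ∀ q : ℕ, q.Prime → (q : ℤ) ∣ d → q = a ∨ q = b ∨ q = p) :
    d.natAbs = 1 ∨ d.natAbs = a ∨ d.natAbs = b ∨ d.natAbs = p ∨ d.natAbs = a * b ∨
      d.natAbs = a * p ∨ d.natAbs = b * p ∨ d.natAbs = a * b * p := by
  have h1 : Squarefree d.natAbs := Int.squarefree_natAbs.2 hd
  have h2 := Nat.prod_primeFactors_of_squarefree h1
  have h3 : d.natAbs.primeFactors ⊆ {a, b, p} := by
    intro q hq
    have hqp := Nat.prime_of_mem_primeFactors hq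
    have := h q hqp (Int.natCast_dvd.2 (Nat.dvd_of_mem_primeFactors hq))
    simpa using this
  rw [← h2]
  have h4 : d.natAbs.primeFactors ∈ ({a, b, p} : Finset ℕ).powerset := Finset.mem_powerset.2 h3
  generalize d.natAbs.primeFactors = T at h3
  by_cases c1 : a ∈ T <;> by_cases c2 : b ∈ T <;> by_cases c3 : p ∈ T
  · have : T = {a, b, p} := by
      ext q; simp only [Finset.mem_insert, Finset.mem_singleton]
      exact ⟨fun hq => by simpa using h3 hq, by rintro (rfl | rfl | rfl) <;> assumption⟩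
    rw [this, Finset.prod_insert (by simp [hab, hap]), Finset.prod_pair hbp]
    right; right; right; right; right; right; right; ring
  · have : T = {a, b} := by
      ext q; simp only [Finset.mem_insert, Finset.mem_singleton]
      refine ⟨fun hq => ?_, by rintro (rfl | rfl) <;> assumption⟩
      have := h3 hq
      simp only [Finset.mem_insert, Finset.mem_singleton] at this
      rcases this with rfl | rfl | rfl
      · left; rfl
      · right; rfl
      · exact absurd hq c3
    rw [this, Finset.prod_pair hab]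
    tauto
  · have : T = {a, p} := by
      ext q; simp only [Finset.mem_insert, Finset.mem_singleton]
      refine ⟨fun hq => ?_, by rintro (rfl | rfl) <;> assumption⟩
      have := h3 hq
      simp only [Finset.mem_insert, Finset.mem_singleton] at this
      rcases this with rfl | rfl | rfl
      · left; rfl
      · exact absurd hq c2
      · right; rfl
    rw [this, Finset.prod_pair hap]
    tauto
  · have : T = {a} := by
      ext q; simp only [Finset.mem_singleton]
      refine ⟨fun hq => ?_, by rintro rfl; assumption⟩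
      have := h3 hq
      simp only [Finset.mem_insert, Finset.mem_singleton] at this
      rcases this with rfl | rfl | rfl
      · rfl
      · exact absurd hq c2
      · exact absurd hq c3
    rw [this, Finset.prod_singleton]
    tauto
  · have : T = {b, p} := by
      ext q; simp only [Finset.mem_insert, Finset.mem_singleton]
      refine ⟨fun hq => ?_, by rintro (rfl | rfl) <;> assumption⟩
      have := h3 hq
      simp only [Finset.mem_insert, Finset.mem_singleton] at this
      rcases this with rfl | rfl | rfl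
      · exact absurd hq c1
      · left; rfl
      · right; rfl
    rw [this, Finset.prod_pair hbp]
    tauto
  · have : T = {b} := by
      ext q; simp only [Finset.mem_singleton]
      refine ⟨fun hq => ?_, by rintro rfl; assumption⟩
      have := h3 hq
      simp only [Finset.mem_insert, Finset.mem_singleton] at this
      rcases this with rfl | rfl | rfl
      · exact absurd hq c1
      · rfl
      · exact absurd hq c3
    rw [this, Finset.prod_singleton]
    tauto
  · have : T = {p} := by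
      ext q; simp only [Finset.mem_singleton]
      refine ⟨fun hq => ?_, by rintro rfl; assumption⟩
      have := h3 hq
      simp only [Finset.mem_insert, Finset.mem_singleton] at this
      rcases this with rfl | rfl | rfl
      · exact absurd hq c1
      · exact absurd hq c2
      · rfl
    rw [this, Finset.prod_singleton]
    tauto
  · have : T = ∅ := by
      ext q
      refine ⟨fun hq => ?_, fun hq => absurd hq (Finset.notMem_empty _)⟩
      have := h3 hq
      simp only [Finset.mem_insert, Finset.mem_singleton] at this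
      rcases this with rfl | rfl | rfl
      · exact absurd hq c1
      · exact absurd hq c2
      · exact absurd hq c3
    rw [this, Finset.prod_empty]
    tauto

/-- ten is not a square -/
theorem ten_not {p : ℕ} [hp : Fact p.Prime] (h8 : p % 8 = 5) (h5 : p % 5 = 1 ∨ p % 5 = 4) :
    ¬ IsSquare (10 : ZMod p) := by
  haveI : Fact (Nat.Prime 5) := ⟨Nat.prime_five⟩
  have hp2 : p ≠ 2 := by rintro rfl; omega
  intro h
  have h2 : ¬ IsSquare (2 : ZMod p) := by
    rw [ZMod.exists_sq_eq_two_iff hp2]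
    omega
  have hs5 : IsSquare ((5 : ℕ) : ZMod p) := by
    rw [ZMod.exists_sq_eq_prime_iff_of_mod_four_eq_one (by omega) (by norm_num)]
    rcases h5 with h | h
    · have : ((p : ℕ) : ZMod 5) = ((1 : ℕ) : ZMod 5) :=
        (ZMod.natCast_eq_natCast_iff' _ _ _).2 (by omega)
      rw [this]
      exact ⟨1, by push_cast; norm_num⟩
    · have : ((p : ℕ) : ZMod 5) = ((4 : ℕ) : ZMod 5) :=
        (ZMod.natCast_eq_natCast_iff' _ _ _).2 (by omega)
      rw [this]
      exact ⟨2, by push_cast; norm_num⟩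
  have h50 : ((5 : ℕ) : ZMod p) ≠ 0 := by
    rw [Ne, ZMod.natCast_eq_zero_iff]
    intro hd
    have := (Nat.prime_dvd_prime_iff_eq hp.out Nat.prime_five).1 hd
    omega
  obtain ⟨a, ha⟩ := h
  obtain ⟨b, hb⟩ := hs5
  have hb0 : b ≠ 0 := by
    rintro rfl
    apply h50
    rw [hb, mul_zero]
  apply h2
  refine ⟨a / b, ?_⟩
  rw [div_mul_div_comm, eq_div_iff (mul_ne_zero hb0 hb0), ← ha, ← hb]
  push_cast
  norm_num

theorem pos_prime (hL : S_LOC) (hB : S_B) {p : ℕ} (hp : p.Prime) (h8 : p % 8 ≠ 1)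
    (h15 : p % 15 = 1 ∨ p % 15 = 4) {d : ℤ} (hd : d ∈ SelSet (-41 * p) (400 * p ^ 2)) :
    d = 1 ∨ d = p := by
  haveI : Fact p.Prime := ⟨hp⟩
  have hsf : Squarefree p := hp.prime.squarefree
  obtain ⟨hC, -⟩ := t_C p hsf
  obtain ⟨hpos, hq⟩ := hC d hd
  have p2 : p ≠ 2 := by rintro rfl; omega
  have p5 : p ≠ 5 := by rintro rfl; omega
  have hodd : p % 2 = 1 := (hp.eq_two_or_odd).resolve_left p2
  have h3 := cond3 (n := p) (by omega) hd
  have hcase := sf_cases hd.1 Nat.prime_two Nat.prime_five hp (by norm_num) p2.symm p5.symm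
    (fun q hq1 hq2 => by
      rcases hq q hq1 hq2 with h | h | h
      · exact Or.inl h
      · exact Or.inr (Or.inl h)
      · exact Or.inr (Or.inr ((Nat.prime_dvd_prime_iff_eq hq1 hp).1 h)))
  have heven : (2 : ℤ) ∣ d → p % 8 = 5 := by
    intro h2
    by_contra hcon
    exact (hB p hsf).1 d hd (by omega) h2
  obtain ⟨hl1, hl2⟩ := (hL p hsf p hp dvd_rfl).1 d hd
  have hd' : d = (d.natAbs : ℤ) := by omega
  rcases hcase with h | h | h | h | h | h | h | h <;> rw [h] at hd' <;> push_cast at hd'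
  · left; exact hd'
  · exfalso; omega
  · exfalso; omega
  · right; exact hd'
  · exfalso
    have h2 := heven ⟨5, by rw [hd']; norm_num⟩
    apply ten_not h2 (by omega : p % 5 = 1 ∨ p % 5 = 4)
    have h4 := hl1 (by
      rw [hd']
      intro h5
      have h6 : p ∣ 10 := by
        have : (p : ℤ) ∣ ((10 : ℕ) : ℤ) := by push_cast; convert h5 using 1
        exact_mod_cast this
      have h7 : p ∣ 2 * 5 := by norm_num; exact h6
      rcases hp.dvd_mul.1 h7 with h | h
      · exact p2 ((Nat.prime_dvd_prime_iff_eq hp Nat.prime_two).1 h)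
      · exact p5 ((Nat.prime_dvd_prime_iff_eq hp Nat.prime_five).1 h))
    rw [hd'] at h4
    push_cast at h4
    norm_num at h4
    exact h4
  · exfalso; omega
  · exfalso; omega
  · exfalso
    have h2 := heven ⟨5 * p, by rw [hd']; ring⟩
    apply ten_not h2 (by omega : p % 5 = 1 ∨ p % 5 = 4)
    have h4 := hl2 10 1 (by rw [hd']; ring) (by ring)
    push_cast at h4
    norm_num at h4
    exact h4

theorem dua_prime (hB : S_B) {p : ℕ} (hp : p.Prime) (h8 : p % 8 ≠ 1)
    (h15 : p % 15 = 1 ∨ p % 15 = 4) {d : ℤ} (hd : d ∈ SelSet (82 * p) (81 * p ^ 2)) :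
    d = 1 ∨ d = -p := by
  haveI : Fact p.Prime := ⟨hp⟩
  have hsf : Squarefree p := hp.prime.squarefree
  obtain ⟨-, hC⟩ := t_C p hsf
  have hq := hC d hd
  have p2 : p ≠ 2 := by rintro rfl; omega
  have p5 : p ≠ 5 := by rintro rfl; omega
  have p3 : p ≠ 3 := by rintro rfl; omega
  have hodd : p % 2 = 1 := (hp.eq_two_or_odd).resolve_left p2
  have h5 := cond5 (n := p) (by omega) hd
  have hcase := sf_cases hd.1 Nat.prime_three Nat.prime_five hp (by norm_num) p3.symm p5.symm
    (fun q hq1 hq2 => by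
      rcases hq q hq1 hq2 with h | h
      · exact Or.inl h
      · exact Or.inr (Or.inr ((Nat.prime_dvd_prime_iff_eq hq1 hp).1 h)))
  have hno5 : ¬ (5 : ℤ) ∣ d := by
    intro h
    rcases hq 5 Nat.prime_five (by exact_mod_cast h) with h | h
    · norm_num at h
    · exact p5 ((Nat.prime_dvd_prime_iff_eq Nat.prime_five hp).1 h).symm
  have hb := ((hB p hsf).2 d hd).1 hodd
  have hno5' : ¬ 5 ∣ d.natAbs := by
    intro h
    exact hno5 (Int.natCast_dvd.2 h)
  rcases hcase with h | h | h | h | h | h | h | h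
  · rcases Int.natAbs_eq d with h' | h' <;> rw [h] at h' <;> push_cast at h'
    · left; exact h'
    · exfalso; omega
  · exfalso; omega
  · exfalso; omega
  · rcases Int.natAbs_eq d with h' | h' <;> rw [h] at h'
    · exfalso; omega
    · right; exact h'
  · exfalso; omega
  · exfalso
    rcases Int.natAbs_eq d with h' | h' <;> rw [h] at h' <;> push_cast at h' <;> omega
  · exfalso; apply hno5'; rw [h]; exact Dvd.intro _ rfl
  · exfalso; apply hno5'; rw [h]; exact ⟨3 * p, by ring⟩

/-- the prime `p ≢ 1` modulo `8`, `p ≡ 1, 4` modulo `15` -/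
theorem fin_prime (hL : S_LOC) (hB : S_B) {p : ℕ} (hp : p.Prime) (h8 : p % 8 ≠ 1)
    (h15 : p % 15 = 1 ∨ p % 15 = 4) :
    {q : ℚ × ℚ | q.2 ^ 2 = q.1 ^ 3 - 41 * p * q.1 ^ 2 + 400 * p ^ 2 * q.1}.Finite :=
  fin_sel hp.ne_zero (fun _ hd => pos_prime hL hB hp h8 h15 hd)
    (fun _ hd => dua_prime hB hp h8 h15 hd)

theorem finX_prime (hL : S_LOC) (hB : S_B) (hQ : S_QX) (hK : S_K) {p : ℕ} (hp : p.Prime)
    (h8 : p % 8 ≠ 1) (h15 : p % 15 = 1 ∨ p % 15 = 4) : FinX p :=
  fun K _ _ h2 hz => hK K h2 p hp.pos hz hQ (fin_prime hL hB hp h8 h15)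

end Pool.Agent.U845.XM
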