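import Pool.Agent.U845.XM.Pr

/-!
# Project XM: the primes `2` or `8` modulo `15`
-/

set_option autoImplicit false

open scoped Classical

namespace Pool.Agent.U845.XM

open Pool.Agent.N916.GB (Po sy Vt Gd Ok eta)
open Pool.Agent.Y703.CQ (nr)

theorem gd_three {p : ℕ} (s : ZMod 2) (r : ZMod 2) : Gd false r s {p} := by
  intro x _ a ha b hb
  unfold Vt at ha hb
  rw [if_neg (by simp)] at ha hb
  rw [Finset.mem_singleton.1 ha, Finset.mem_singleton.1 hb]

theorem gd_empty (r s : ZMod 2) : Gd true r s ∅ := by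
  intro x _ a ha b hb
  unfold Vt at ha hb
  rw [if_pos rfl] at ha hb
  simp only [Finset.mem_insert, Finset.notMem_empty, or_false] at ha hb
  rw [ha, hb]

theorem gd_five {p : ℕ} [hp : Fact p.Prime] (h8 : p % 8 = 5) (r s : ZMod 2) : Gd true r s {p} := by
  have hp2 : p ≠ 2 := by rintro rfl; omega
  intro x hx
  have h1 := hx 2 (by unfold Vt; rw [if_pos rfl]; exact Finset.mem_insert_self _ _)
  have hV : Vt true {p} = {2, p} := by
    unfold Vt
    rw [if_pos rfl]
  rw [hV, Finset.sum_pair hp2.symm] at h1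
  have h2 : sy r s 2 p = 1 := by
    unfold sy
    rw [if_neg hp2]
    unfold nr
    have hns : ¬ IsSquare ((2 : ℕ) : ZMod p) := by
      push_cast
      rw [ZMod.exists_sq_eq_two_iff hp2]
      omega
    rw [if_neg hns]
  have h3 : x 2 + x 2 = 0 := CharTwo.add_self_eq_zero _
  rw [h2, h3, zero_mul, zero_add, mul_one] at h1
  have h4 : x p = x 2 := by
    have := CharTwo.add_self_eq_zero (x 2)
    exact add_right_cancel (h1.trans this.symm)
  intro a ha b hb
  rw [hV] at ha hb
  simp only [Finset.mem_insert, Finset.mem_singleton] at ha hb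
  rcases ha with rfl | rfl <;> rcases hb with rfl | rfl <;> simp [h4]

theorem finX_prime' (hP : S_POS) (hD : S_DUA) (hQ : S_QX) (hK : S_K) {p : ℕ} (hp : p.Prime)
    (h8 : p % 8 ≠ 1) (h15 : p % 15 = 2 ∨ p % 15 = 8) : FinX p := by
  haveI : Fact p.Prime := ⟨hp⟩
  have h10 : (1 : ZMod 2) ≠ 0 := by decide
  have h01 : (0 : ZMod 2) ≠ 1 := by decide
  have hn : Nc p := ⟨hp.prime.squarefree, by omega, by omega, by omega⟩
  rcases hp.eq_two_or_odd with h2 | h2
  · refine finX_of hP hD hQ hK (t := true) (r := 1) (s := 1) (m := 1) hn ⟨?_, ?_, by simp⟩ ?_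
    · rw [if_pos rfl, h2]
    · rw [if_neg h10]
    · rw [Nat.primeFactors_one]
      exact gd_empty _ _
  · rcases (by omega : p % 4 = 3 ∨ p % 8 = 5) with h | h
    · refine finX_of hP hD hQ hK (t := false) (r := 0) (s := 0) (m := p) hn ⟨?_, ?_, by simp⟩ ?_
      · rw [if_neg h01]
      · rw [if_pos rfl]; exact h
      · rw [hp.primeFactors]
        exact gd_three _ _
    · refine finX_of hP hD hQ hK (t := true) (r := 0) (s := 1) (m := p) hn ⟨?_, ?_, by simp⟩ ?_
      · rw [if_neg h01]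
      · rw [if_neg h10]; omega
      · rw [hp.primeFactors]
        exact gd_five h _ _

/-- all the primes `p ≢ 1` modulo `8` in the classes `1, 2, 4, 8` modulo `15` -/
theorem finX_primes (hL : S_LOC) (hB : S_B) (hP : S_POS) (hD : S_DUA) (hQ : S_QX) (hK : S_K)
    {p : ℕ} (hp : p.Prime) (h8 : p % 8 ≠ 1)
    (h15 : p % 15 = 1 ∨ p % 15 = 2 ∨ p % 15 = 4 ∨ p % 15 = 8) : FinX p := by
  rcases h15 with h | h | h | h
  · exact finX_prime hL hB hQ hK hp h8 (Or.inl h)
  · exact finX_prime' hP hD hQ hK hp h8 (Or.inl h)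
  · exact finX_prime hL hB hQ hK hp h8 (Or.inr h)
  · exact finX_prime' hP hD hQ hK hp h8 (Or.inr h)

end Pool.Agent.U845.XM
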